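import Pool.Agent.Run7.h434.EP.Iface
import Pool.Agent.R310.OP2.Body
import Pool.Agent.R656.OP2.Core
import Pool.Agent.Y211.FF.Half

/-!
# Project EP (helper434), piece CHE: from Poincare to Cheeger against halfspaces, general bodies
-/

set_option autoImplicit false

namespace Run7.h999.EP

open MeasureTheory Set Filter Topology
open scoped ENNReal InnerProductSpace
open Pool.Agent.W695.KH (Eu EV VV Sm)
open Run7.h434.EP

variable {κ : Type} [Fintype κ]

/-- uniform probability measure -/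
noncomputable def un (K : Set (Eu κ)) : Measure (Eu κ) :=
  (volume K)⁻¹ • volume.restrict K

theorem vpos {K : Set (Eu κ)} (hi : (interior K).Nonempty) : 0 < volume K :=
  lt_of_lt_of_le (isOpen_interior.measure_pos volume hi) (measure_mono interior_subset)

theorem un_prob {K : Set (Eu κ)} (hc : IsCompact K) (hv : 0 < volume K) :
    IsProbabilityMeasure (un K) := by
  refine ⟨?_⟩
  unfold un
  rw [Measure.smul_apply, Measure.restrict_apply_univ, smul_eq_mul]
  exact ENNReal.inv_mul_cancel hv.ne' hc.measure_lt_top.ne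

theorem un_int (K : Set (Eu κ)) (v : Eu κ → ℝ) : ∫ x, v x ∂(un K) = EV K v := by
  unfold un EV
  rw [integral_smul_measure, ENNReal.toReal_inv, smul_eq_mul, inv_mul_eq_div]

theorem un_integrable {K : Set (Eu κ)} (hc : IsCompact K) (hv : 0 < volume K)
    (v : Eu κ → ℝ) (h : Continuous v) : Integrable v (un K) := by
  unfold un
  exact (h.continuousOn.integrableOn_compact hc).smul_measure (ENNReal.inv_ne_top.2 hv.ne')

theorem var_eq {K : Set (Eu κ)} (hc : IsCompact K) (hv : 0 < volume K)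
    (v : Eu κ → ℝ) (h : Continuous v) : ProbabilityTheory.variance v (un K) = VV K v := by
  have := un_prob hc hv
  have hL2 : MemLp v 2 (un K) := by
    rw [memLp_two_iff_integrable_sq h.aestronglyMeasurable]
    exact un_integrable hc hv _ (h.pow 2)
  rw [ProbabilityTheory.variance_eq_sub hL2]
  unfold VV
  rw [← un_int, ← un_int]
  rfl

/-- Cheeger inequality, all measurable sets -/
theorem sets (D : Set (Eu κ)) (hc : IsCompact D) (hco : Convex ℝ D) (hi : (interior D).Nonempty)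
    (Cp : ℝ) (hCp : 0 < Cp) (hP : Poi D Cp) (S : Set (Eu κ)) (hS : MeasurableSet S) :
    ENNReal.ofReal (1 / (8 * Real.sqrt Cp)) * min (un D S) (1 - un D S) ≤
      liminf (fun ε : ℝ =>
        (un D (Metric.thickening ε S) - un D S) / ENNReal.ofReal ε) (𝓝[>] 0) := by
  have hv := vpos hi
  have hprob := un_prob hc hv
  have hs0 : 0 < Real.sqrt Cp := Real.sqrt_pos.2 hCp
  have key := Pool.Agent.W695.KH.mink κ D hc hco hv (4 * Real.sqrt Cp) (by positivity)
    (fun f L M hf hb => Pool.Agent.R310.OP2.Body.bodl Pool.Agent.R656.OP2.t_corl κ D hc hco hv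
      Cp hCp (fun v hv1 => hP v hv1) f L M hf hb) (un D) rfl S hS
  obtain ⟨I, hI⟩ : ∃ I : ℝ≥0∞, I = liminf (fun ε : ℝ =>
    (un D (Metric.thickening ε S) - un D S) / ENNReal.ofReal ε) (𝓝[>] 0) := ⟨_, rfl⟩
  rw [← hI] at key ⊢
  obtain ⟨a, ha⟩ : ∃ a : ℝ≥0∞, a = un D S := ⟨_, rfl⟩
  rw [← ha] at key ⊢
  have ha1 : a ≤ 1 := by rw [ha]; exact prob_le_one
  have hadd : a + (1 - a) = 1 := add_tsub_cancel_of_le ha1
  have hmin : min a (1 - a) ≤ 2 * (a * (1 - a)) := by
    rcases le_total a (1 - a) with h1 | h1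
    · have h2 : 1 ≤ 2 * (1 - a) := by
        calc (1 : ℝ≥0∞) = a + (1 - a) := hadd.symm
          _ ≤ (1 - a) + (1 - a) := by gcongr
          _ = 2 * (1 - a) := (two_mul _).symm
      calc min a (1 - a) ≤ a * 1 := by rw [mul_one]; exact min_le_left _ _
        _ ≤ a * (2 * (1 - a)) := by gcongr
        _ = _ := by ring
    · have h2 : 1 ≤ 2 * a := by
        calc (1 : ℝ≥0∞) = a + (1 - a) := hadd.symm
          _ ≤ a + a := by gcongr
          _ = 2 * a := (two_mul _).symm
      calc min a (1 - a) ≤ 1 * (1 - a) := by rw [one_mul]; exact min_le_right _ _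
        _ ≤ 2 * a * (1 - a) := by gcongr
        _ = _ := by ring
  calc ENNReal.ofReal (1 / (8 * Real.sqrt Cp)) * min a (1 - a)
      ≤ ENNReal.ofReal (1 / (8 * Real.sqrt Cp)) * (2 * (a * (1 - a))) := by gcongr
    _ ≤ ENNReal.ofReal (1 / (8 * Real.sqrt Cp)) *
        (2 * (ENNReal.ofReal (4 * Real.sqrt Cp) * I)) := by gcongr
    _ = (ENNReal.ofReal (1 / (8 * Real.sqrt Cp)) * ENNReal.ofReal 2 *
        ENNReal.ofReal (4 * Real.sqrt Cp)) * I := by
        rw [ENNReal.ofReal_ofNat]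
        ring
    _ = I := by
        rw [← ENNReal.ofReal_mul (by positivity), ← ENNReal.ofReal_mul (by positivity)]
        have : 1 / (8 * Real.sqrt Cp) * 2 * (4 * Real.sqrt Cp) = 1 := by
          field_simp
          norm_num
        rw [this, ENNReal.ofReal_one, one_mul]

/-- **CHE** -/
theorem t_CHE : S_CHE := by
  obtain ⟨C, hC, HH⟩ := Pool.Agent.Y211.FF.half
  have hsC : 0 < Real.sqrt C := Real.sqrt_pos.2 hC
  refine ⟨1 / (8 * Real.sqrt C), by positivity, ?_⟩
  intro κ _ _ D hc hco hi Cp σ hCp hσ hP a ha hvar μ hμ t ht S hS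
  have hμ' : μ = un D := hμ
  subst hμ'
  have hv := vpos hi
  have hprob := un_prob hc hv
  have hsp : 0 < Real.sqrt Cp := Real.sqrt_pos.2 hCp
  have hss : 0 < Real.sqrt σ := Real.sqrt_pos.2 hσ
  refine le_trans ?_ (sets D hc hco hi Cp hCp hP S hS)
  obtain ⟨m, hm⟩ := HH κ D hc hco hi (un D) rfl a t ha ht
  have hcont : Continuous fun x : Eu κ => (⟪a, x⟫_ℝ - m) ^ 2 := by fun_prop
  rw [← ofReal_integral_eq_lintegral_ofReal (un_integrable hc hv _ hcont)
    (Eventually.of_forall fun x => sq_nonneg _)] at hm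
  have h3 : σ ≤ ∫ x, (⟪a, x⟫_ℝ - m) ^ 2 ∂(un D) := by
    have h4 : ProbabilityTheory.variance (fun x => ⟪a, x⟫_ℝ - m) (un D) =
        ProbabilityTheory.variance (fun x => ⟪a, x⟫_ℝ) (un D) :=
      ProbabilityTheory.variance_sub_const (by fun_prop) m
    rw [var_eq hc hv _ (by fun_prop), var_eq hc hv _ (by fun_prop)] at h4
    refine hvar.trans ?_
    rw [← h4, ← var_eq hc hv _ (by fun_prop)]
    exact ProbabilityTheory.variance_le_expectation_sq (by fun_prop)
  have h5 : t ^ 2 * ENNReal.ofReal σ ≤ ENNReal.ofReal C :=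
    (mul_le_mul_right (ENNReal.ofReal_le_ofReal h3) _).trans hm
  have ht2 : t ^ 2 ≤ ENNReal.ofReal (C / σ) := by
    have e : ENNReal.ofReal (C / σ) = ENNReal.ofReal C * ENNReal.ofReal σ⁻¹ := by
      rw [← ENNReal.ofReal_mul hC.le, div_eq_mul_inv]
    rw [e]
    calc t ^ 2 = t ^ 2 * ENNReal.ofReal σ * ENNReal.ofReal σ⁻¹ := by
          rw [mul_assoc, ← ENNReal.ofReal_mul hσ.le, mul_inv_cancel₀ hσ.ne', ENNReal.ofReal_one,
            mul_one]
      _ ≤ _ := mul_le_mul_left h5 _
  have ht3 : t ≤ ENNReal.ofReal (Real.sqrt (C / σ)) := by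
    have e : ENNReal.ofReal (C / σ) = ENNReal.ofReal (Real.sqrt (C / σ)) ^ 2 := by
      rw [← ENNReal.ofReal_pow (Real.sqrt_nonneg _), Real.sq_sqrt (by positivity)]
    rw [e] at ht2
    exact (ENNReal.pow_le_pow_left_iff two_ne_zero).1 ht2
  have h6 : ENNReal.ofReal (1 / (8 * Real.sqrt C) * Real.sqrt (σ / Cp)) * t ≤
      ENNReal.ofReal (1 / (8 * Real.sqrt Cp)) := by
    calc _ ≤ ENNReal.ofReal (1 / (8 * Real.sqrt C) * Real.sqrt (σ / Cp)) *
          ENNReal.ofReal (Real.sqrt (C / σ)) := mul_le_mul_right ht3 _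
      _ = ENNReal.ofReal (1 / (8 * Real.sqrt Cp)) := by
          rw [← ENNReal.ofReal_mul (by positivity)]
          congr 1
          rw [Real.sqrt_div hσ.le, Real.sqrt_div hC.le]
          field_simp
  exact mul_le_mul' h6 le_rfl

end Run7.h999.EP
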